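import Mathlib

namespace Pool.Agent.H159Z.TP

open FirstOrder FirstOrder.Language Filter

universe u v w

variable {L : FirstOrder.Language.{u, v}}

/-- parameter-free definable relations on tuples -/
def Df (L : FirstOrder.Language.{u, v}) {M : Type w} [L.Structure M] {γ : Type}
    (R : (γ → M) → Prop) : Prop :=
  ∃ φ : L.Formula γ, ∀ v, φ.Realize v ↔ R v

/-- definable binary relations between tuples -/
def Df2 (L : FirstOrder.Language.{u, v}) {M : Type w} [L.Structure M] {α β : Type}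
    (R : (α → M) → (β → M) → Prop) : Prop :=
  Df L (fun v : α ⊕ β → M => R (v ∘ Sum.inl) (v ∘ Sum.inr))

section API

variable {M : Type w} [L.Structure M] {α β γ δ : Type}

lemma Df.congr {R R' : (γ → M) → Prop} (h : Df L R) (e : ∀ v, R v ↔ R' v) : Df L R' := by
  obtain ⟨φ, hφ⟩ := h
  exact ⟨φ, fun v => (hφ v).trans (e v)⟩

lemma Df.comp {R : (γ → M) → Prop} (h : Df L R) (f : γ → δ) :
    Df L (fun v : δ → M => R (v ∘ f)) := by
  obtain ⟨φ, hφ⟩ := h
  exact ⟨φ.relabel f, fun v => by rw [Formula.realize_relabel, hφ]⟩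

lemma Df.and {R R' : (γ → M) → Prop} (h : Df L R) (h' : Df L R') :
    Df L (fun v => R v ∧ R' v) := by
  obtain ⟨φ, hφ⟩ := h
  obtain ⟨ψ, hψ⟩ := h'
  exact ⟨φ ⊓ ψ, fun v => by rw [Formula.realize_inf, hφ, hψ]⟩

lemma Df.or {R R' : (γ → M) → Prop} (h : Df L R) (h' : Df L R') :
    Df L (fun v => R v ∨ R' v) := by
  obtain ⟨φ, hφ⟩ := h
  obtain ⟨ψ, hψ⟩ := h'
  exact ⟨φ ⊔ ψ, fun v => by rw [Formula.realize_sup, hφ, hψ]⟩

lemma Df.not {R : (γ → M) → Prop} (h : Df L R) : Df L (fun v => ¬ R v) := by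
  obtain ⟨φ, hφ⟩ := h
  exact ⟨φ.not, fun v => by rw [Formula.realize_not, hφ]⟩

lemma Df.imp {R R' : (γ → M) → Prop} (h : Df L R) (h' : Df L R') :
    Df L (fun v => R v → R' v) :=
  (h.not.or h').congr (fun v => by tauto)

lemma Df.tru : Df L (fun _ : γ → M => True) :=
  ⟨⊤, fun v => by simp⟩

lemma Df.const (p : Prop) : Df L (fun _ : γ → M => p) := by
  by_cases hp : p
  · exact Df.tru.congr (fun _ => by simp [hp])
  · exact Df.tru.not.congr (fun _ => by simp [hp])

lemma Df.all {ι : Type} [Finite ι] {R : ι → (γ → M) → Prop} (h : ∀ i, Df L (R i)) :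
    Df L (fun v => ∀ i, R i v) := by
  choose φ hφ using h
  exact ⟨Formula.iInf φ, fun v => by rw [Formula.realize_iInf]; exact forall_congr' fun i => hφ i v⟩

lemma Df.eq (i j : γ) : Df L (fun v : γ → M => v i = v j) :=
  ⟨Term.equal (Term.var i) (Term.var j), fun v => by simp⟩

lemma Df.eqt [Finite α] (f g : α → γ) : Df L (fun v : γ → M => v ∘ f = v ∘ g) :=
  (Df.all (fun i => Df.eq (L := L) (M := M) (f i) (g i))).congr
    (fun v => by simp [funext_iff])

lemma Df2.app {R : (α → M) → (β → M) → Prop} (h : Df2 L R) (f : α → γ) (g : β → γ) :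
    Df L (fun v : γ → M => R (v ∘ f) (v ∘ g)) :=
  (Df.comp h (Sum.elim f g)).congr (fun _ => Iff.rfl)

lemma Df2.ex [Finite δ] {R : (γ → M) → (δ → M) → Prop} (h : Df2 L R) :
    Df L (fun v => ∃ w, R v w) := by
  obtain ⟨φ, hφ⟩ := h
  refine ⟨φ.iExs δ, fun v => ?_⟩
  rw [Formula.realize_iExs]
  exact exists_congr fun w => by rw [hφ]; rfl

lemma Df2.fa [Finite δ] {R : (γ → M) → (δ → M) → Prop} (h : Df2 L R) :
    Df L (fun v => ∀ w, R v w) := by
  have h' : Df2 L (fun v w => ¬ R v w) := Df.not h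
  exact h'.ex.not.congr (fun v => by simp)

/-- the relation defined by a partitioned formula -/
def rel (φ : L.Formula (α ⊕ β)) (M : Type w) [L.Structure M] (x : α → M) (y : β → M) : Prop :=
  φ.Realize (Sum.elim x y)

lemma df2_rel (φ : L.Formula (α ⊕ β)) : Df2 L (rel φ M) :=
  ⟨φ, fun v => by simp [rel]⟩

lemma Df2.exists_rel {R : (α → M) → (β → M) → Prop} (h : Df2 L R) :
    ∃ φ : L.Formula (α ⊕ β), rel φ M = R := by
  obtain ⟨φ, hφ⟩ := h
  refine ⟨φ, ?_⟩
  funext x y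
  apply propext
  unfold rel
  rw [hφ]
  rfl

lemma Df2.toFin [Finite α] [Finite β] {R : (α → M) → (β → M) → Prop} (h : Df2 L R) :
    ∃ (m n : ℕ) (φ : L.Formula (Fin m ⊕ Fin n)) (e : α ≃ Fin m) (e' : β ≃ Fin n),
      ∀ (x : Fin m → M) (y : Fin n → M), φ.Realize (Sum.elim x y) ↔ R (x ∘ e) (y ∘ e') := by
  obtain ⟨m, ⟨e⟩⟩ := Finite.exists_equiv_fin α
  obtain ⟨n, ⟨e'⟩⟩ := Finite.exists_equiv_fin β
  obtain ⟨φ, hφ⟩ := h.app (γ := Fin m ⊕ Fin n) (Sum.inl ∘ e) (Sum.inr ∘ e')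
  exact ⟨m, n, φ, e, e', fun x y => by rw [hφ]; rfl⟩

end API

section Ultra

/-- the ultrapower along the hyperfilter on the naturals -/
abbrev UP (M : Type w) : Type w := ((hyperfilter ℕ : Ultrafilter ℕ) : Filter ℕ).Product (fun _ => M)

variable {M : Type w} [L.Structure M] {α β : Type}

/-- the class of a sequence of tuples -/
noncomputable def lift (x : ℕ → α → M) : α → UP M := fun i => ((fun N => x N i : ∀ _ : ℕ, M) : UP M)

lemma lift_surj (z : α → UP M) : ∃ x : ℕ → α → M, lift x = z := by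
  have : ∀ i, ∃ s : ℕ → M, ((s : ∀ _ : ℕ, M) : UP M) = z i := fun i =>
    Quotient.exists_rep (z i)
  choose s hs using this
  exact ⟨fun N i => s i N, funext hs⟩

lemma rel_lift [Nonempty M] (φ : L.Formula (α ⊕ β)) (x : ℕ → α → M) (y : ℕ → β → M) :
    rel φ (UP M) (lift x) (lift y) ↔
      ∀ᶠ N in ((hyperfilter ℕ : Ultrafilter ℕ) : Filter ℕ), rel φ M (x N) (y N) := by
  have := Ultraproduct.realize_formula_cast (L := L) (M := fun _ : ℕ => M) (u := hyperfilter ℕ) φ
    (fun i N => Sum.elim (x N) (y N) i)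
  unfold rel
  rw [← this]
  apply iff_of_eq
  congr 1
  funext i
  cases i <;> rfl

lemma up_model [Nonempty M] (T : L.Theory) [M ⊨ T] : UP M ⊨ T := by
  refine ⟨fun φ hφ => ?_⟩
  rw [Ultraproduct.sentence_realize (L := L) (M := fun _ : ℕ => M) (u := hyperfilter ℕ) φ]
  exact Filter.Eventually.of_forall fun _ => T.realize_sentence_of_mem hφ

/-- the ultrapower as a bundled model -/
noncomputable def upModel {T : L.Theory} (M : Theory.ModelType.{u, v, w} T) :
    Theory.ModelType.{u, v, w} T :=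
  haveI := up_model (M := M) T
  Theory.ModelType.of T (UP M)

lemma ev_of_atTop {p : ℕ → Prop} (h : ∀ᶠ N in atTop, p N) :
    ∀ᶠ N in ((hyperfilter ℕ : Ultrafilter ℕ) : Filter ℕ), p N :=
  h.filter_mono (by rw [← Nat.cofinite_eq_atTop]; exact hyperfilter_le_cofinite)

end Ultra

end Pool.Agent.H159Z.TP
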