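import Mathlib

/-!
Definitions for MP_4a08ba_lc: the tree property and `Σ`-SOP of a first-order theory.
-/

namespace Pool.Agent.H159Z.TP

open FirstOrder FirstOrder.Language

universe u v w

variable {L : FirstOrder.Language.{u, v}}

/-- `T` has `S`-SOP for the poset `S`: there are a partitioned formula `φ(x, y)` with finite tuples
of variables, a model `M` of `T` and tuples `a s` from `M` such that
`M ⊨ ∀ x (φ(x, a s) → φ(x, a t))` holds exactly when `s ≤ t`. -/
def HasPosetSOP (S : Type) [PartialOrder S] (T : L.Theory) : Prop :=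
  ∃ (m n : ℕ) (φ : L.Formula (Fin m ⊕ Fin n)) (M : Theory.ModelType.{u, v, w} T)
    (a : S → Fin n → M),
    ∀ s t : S, (∀ x : Fin m → M, φ.Realize (Sum.elim x (a s)) → φ.Realize (Sum.elim x (a t))) ↔
      s ≤ t

/-- The family of instances `φ(x, c i)`, `i ∈ I`, with parameters from `M` is consistent
(with the elementary diagram of `M`): every finite subfamily has a common realization in `M`. -/
def ConsistentFamily {m n : ℕ} (φ : L.Formula (Fin m ⊕ Fin n)) {M : Type w} [L.Structure M]
    {ι : Type} (c : ι → Fin n → M) (I : Set ι) : Prop :=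
  ∀ s : Finset ι, (s : Set ι) ⊆ I → ∃ x : Fin m → M, ∀ i ∈ s, φ.Realize (Sum.elim x (c i))

/-- `T` has the tree property: there are a partitioned formula `φ(x, y)`, a model `M` of `T` and
tuples `a η` (`η` a finite sequence of naturals) such that
(1) for every branch `β : ℕ → ℕ` the set of `φ(x, a (β|j))`, `j ∈ ℕ`, is consistent, and
(2) for some `k` and every `η`, any `k` members of the family `φ(x, a (η ⌢ i))`, `i ∈ ℕ`,
form an inconsistent set. -/
def HasTP (T : L.Theory) : Prop :=
  ∃ (m n : ℕ) (φ : L.Formula (Fin m ⊕ Fin n)) (M : Theory.ModelType.{u, v, w} T)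
    (a : List ℕ → Fin n → M),
    (∀ β : ℕ → ℕ,
      ConsistentFamily φ (fun j : ℕ => a (List.ofFn fun i : Fin j => β i)) Set.univ) ∧
    ∃ k : ℕ, ∀ (η : List ℕ) (s : Finset ℕ), s.card = k →
      ¬ ConsistentFamily φ (fun i : ℕ => a (η ++ [i])) (s : Set ℕ)

end Pool.Agent.H159Z.TP
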