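import Pool.Agent.H159Z.TP.Reduce

namespace Pool.Agent.H159Z.TP

open FirstOrder FirstOrder.Language Filter

universe u v w

variable {L : FirstOrder.Language.{u, v}}

/-- finite approximations of a countable linear order inside the naturals -/
lemma exists_approx (J : Type) [LinearOrder J] [Countable J] :
    ∃ f : ℕ → J → ℕ, ∀ p q : J, ∀ᶠ N in atTop, (f N q ≤ f N p ↔ q ≤ p) := by
  classical
  obtain ⟨e, he⟩ := Countable.exists_injective_nat J
  have hfin : ∀ N, ({x : J | e x < N}).Finite := fun N =>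
    (Set.finite_lt_nat N).preimage he.injOn
  refine ⟨fun N p => ((hfin N).toFinset.filter (· < p)).card, fun p q => ?_⟩
  filter_upwards [eventually_gt_atTop (e p)] with N hN
  constructor
  · intro h
    by_contra hlt
    push Not at hlt
    have : ((hfin N).toFinset.filter (· < p)) ⊂ ((hfin N).toFinset.filter (· < q)) := by
      refine ⟨fun x hx => ?_, fun hsub => ?_⟩
      · simp only [Finset.mem_filter] at hx ⊢
        exact ⟨hx.1, hx.2.trans hlt⟩
      · have : p ∈ ((hfin N).toFinset.filter (· < q)) := by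
          simp [hN, hlt]
        simpa using hsub this
    exact absurd (Finset.card_lt_card this) (not_lt.2 h)
  · intro h
    refine Finset.card_le_card fun x hx => ?_
    simp only [Finset.mem_filter] at hx ⊢
    exact ⟨hx.1, hx.2.trans_le h⟩

/-- initial segments are lexicographic intervals -/
lemma pre_iff_lex (ν η : List ℕ) :
    ν <+: η ↔ (¬ (η.map (fun i : ℕ => (i : ℕ∞)) < ν.map (fun i : ℕ => (i : ℕ∞))) ∧
      η.map (fun i : ℕ => (i : ℕ∞)) < ν.map (fun i : ℕ => (i : ℕ∞)) ++ [⊤]) := by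
  induction ν generalizing η with
  | nil =>
    cases η with
    | nil => simp
    | cons j η =>
      simp only [List.nil_prefix, List.map_nil, List.map_cons, List.nil_append, true_iff]
      refine ⟨List.not_lt_nil _, ?_⟩
      rw [List.cons_lt_cons_iff]
      exact Or.inl (ENat.natCast_lt_top j)
  | cons i ν ih =>
    cases η with
    | nil =>
      simp only [List.prefix_nil, List.map_cons, List.map_nil, List.cons_append]
      constructor
      · intro h
        exact absurd h (by simp)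
      · rintro ⟨h, -⟩
        exact absurd (List.nil_lt_cons _ _) h
    | cons j η =>
      simp only [List.cons_prefix_cons, List.map_cons, List.cons_append]
      rw [List.cons_lt_cons_iff, List.cons_lt_cons_iff, ih η]
      simp only [Nat.cast_lt, Nat.cast_inj]
      constructor
      · rintro ⟨rfl, h1, h2⟩
        refine ⟨?_, Or.inr ⟨rfl, h2⟩⟩
        rintro (h | ⟨-, h⟩)
        · exact lt_irrefl _ h
        · exact h1 h
      · rintro ⟨h1, h | ⟨rfl, h⟩⟩
        · exact absurd (Or.inl h) h1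
        · exact ⟨rfl, fun h' => h1 (Or.inr ⟨rfl, h'⟩), h⟩

/-- the exact tree pattern -/
def ExactTP (T : L.Theory) : Prop :=
  ∃ (α β : Type) (_ : Finite α) (_ : Finite β) (M : Theory.ModelType.{u, v, w} T)
    (R : (α → M) → (β → M) → Prop) (_ : Df2 L R) (a : List ℕ → β → M) (b : List ℕ → α → M),
    (∀ η ν, R (b η) (a ν) ↔ ν <+: η) ∧
    ∀ (η : List ℕ) (i j : ℕ), i ≠ j → ¬ ∃ x, R x (a (η ++ [i])) ∧ R x (a (η ++ [j]))

lemma half_graph {X Y : Type w} (R : X → Y → Prop) (a : List ℕ → Y) (b : List ℕ → X)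
    (hb : ∀ η ν, ν <+: η → R (b η) (a ν))
    (hs : ∀ (η : List ℕ) (i j : ℕ), i ≠ j → ¬ ∃ x, R x (a (η ++ [i])) ∧ R x (a (η ++ [j]))) :
    ∃ (h : ℕ → X) (e : ℕ → Y), ∀ i j, R (h i) (e j) ↔ j ≤ i := by
  have hpick : ∀ η : List ℕ, ∃ i, ∀ μ, μ <+: η → ¬ R (b μ) (a (η ++ [i])) := by
    intro η
    have hfin : (⋃ μ ∈ {μ : List ℕ | μ <+: η}, {i : ℕ | R (b μ) (a (η ++ [i]))}).Finite := by
      refine Set.Finite.biUnion ?_ fun μ _ => Set.Subsingleton.finite ?_
      · exact (List.finite_toSet η.inits).subset fun ν hν => by simpa using hν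
      · intro i hi j hj
        by_contra hij
        exact hs η i j hij ⟨b μ, hi, hj⟩
    obtain ⟨i, hi⟩ := hfin.infinite_compl.nonempty
    refine ⟨i, fun μ hμ hR => hi ?_⟩
    simp only [Set.mem_iUnion]
    exact ⟨μ, hμ, hR⟩
  choose pick hpick using hpick
  let ν : ℕ → List ℕ := fun n => (fun η => η ++ [pick η])^[n] []
  have hν : ∀ n, ν (n + 1) = ν n ++ [pick (ν n)] := fun n => Function.iterate_succ_apply' _ _ _
  have hmono : ∀ i j, i ≤ j → ν i <+: ν j := by
    intro i j hij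
    induction j, hij using Nat.le_induction with
    | base => exact List.prefix_refl _
    | succ j _ ih => rw [hν]; exact ih.trans (List.prefix_append _ _)
  refine ⟨fun i => b (ν i), fun j => a (ν j), fun i j => ⟨fun h => ?_, fun h => hb _ _ (hmono _ _ h)⟩⟩
  by_contra hlt
  obtain ⟨j, rfl⟩ : ∃ j', j = j' + 1 := ⟨j - 1, by omega⟩
  simp only [hν] at h
  exact hpick (ν j) (ν i) (hmono _ _ (by omega)) h

lemma exact_of_tp2 {T : L.Theory} (h : TPk.{u, v, w} T 2) : ExactTP.{u, v, w} T := by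
  obtain ⟨α, β, hα, hβ, M, R, hR, a₀, hp, hs₀⟩ := h
  obtain ⟨φ, rfl⟩ := hR.exists_rel
  choose b₀ hb₀ using hp
  let a : List ℕ → β → M := fun ν => a₀ (0 :: ν)
  let b : List ℕ → α → M := fun η => b₀ (0 :: η)
  have hb : ∀ η ν, ν <+: η → rel φ M (b η) (a ν) := fun η ν h =>
    hb₀ _ _ (List.cons_prefix_cons.2 ⟨rfl, h⟩) (by simp)
  have hs : ∀ (η : List ℕ) (i j : ℕ), i ≠ j →
      ¬ ∃ x, rel φ M x (a (η ++ [i])) ∧ rel φ M x (a (η ++ [j])) := by
    rintro η i j hij ⟨x, h1, h2⟩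
    refine hs₀ (0 :: η) {i, j} (Finset.card_pair hij) ⟨x, fun l hl => ?_⟩
    rcases Finset.mem_insert.1 hl with rfl | hl
    · exact h1
    · rw [Finset.mem_singleton.1 hl]
      exact h2
  obtain ⟨h, e, he⟩ := half_graph (rel φ M) a b hb hs
  obtain ⟨f, hf⟩ := exists_approx (List ℕ∞)
  let hU : List ℕ∞ → α → UP M := fun p => lift (fun N => h (f N p))
  let eU : List ℕ∞ → β → UP M := fun q => lift (fun N => e (f N q))
  have heU : ∀ p q, rel φ (UP M) (hU p) (eU q) ↔ q ≤ p := by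
    intro p q
    rw [rel_lift]
    constructor
    · intro h1
      obtain ⟨N, hN1, hN2⟩ := (h1.and (ev_of_atTop (hf p q))).exists
      exact hN2.1 ((he _ _).1 hN1)
    · intro h1
      filter_upwards [ev_of_atTop (hf p q)] with N hN
      exact (he _ _).2 (hN.2 h1)
  let P : List ℕ → List ℕ∞ := fun ν => ν.map (fun i : ℕ => (i : ℕ∞))
  let R' : (α ⊕ α → UP M) → (β ⊕ β ⊕ β → UP M) → Prop := fun x y =>
    rel φ (UP M) (x ∘ Sum.inl) (y ∘ Sum.inl) ∧
      rel φ (UP M) (x ∘ Sum.inr) (y ∘ Sum.inr ∘ Sum.inl) ∧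
      ¬ rel φ (UP M) (x ∘ Sum.inr) (y ∘ Sum.inr ∘ Sum.inr)
  have hR' : Df2 L R' :=
    Df.and ((df2_rel φ).app (fun j => Sum.inl (Sum.inl j)) (fun j => Sum.inr (Sum.inl j)))
      (Df.and
        ((df2_rel φ).app (fun j => Sum.inl (Sum.inr j)) (fun j => Sum.inr (Sum.inr (Sum.inl j))))
        (Df.not ((df2_rel φ).app (fun j => Sum.inl (Sum.inr j))
          (fun j => Sum.inr (Sum.inr (Sum.inr j))))))
  refine ⟨α ⊕ α, β ⊕ β ⊕ β, inferInstance, inferInstance, upModel M, R', hR',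
    fun ν => Sum.elim (lift fun _ => a ν) (Sum.elim (eU (P ν)) (eU (P ν ++ [⊤]))),
    fun η => Sum.elim (lift fun _ => b η) (hU (P η)), fun η ν => ?_, fun η i j hij => ?_⟩
  · show (rel φ (UP M) (lift fun _ => b η) (lift fun _ => a ν) ∧
      rel φ (UP M) (hU (P η)) (eU (P ν)) ∧ ¬ rel φ (UP M) (hU (P η)) (eU (P ν ++ [⊤]))) ↔ _
    rw [heU, heU, not_le, ← not_lt (a := P η), ← pre_iff_lex]
    constructor
    · exact fun h => h.2
    · intro h
      exact ⟨(rel_lift φ _ _).2 (Filter.Eventually.of_forall fun _ => hb _ _ h), h⟩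
  · rintro ⟨z, h1, h2⟩
    obtain ⟨x, hx⟩ := lift_surj (z ∘ Sum.inl : α → UP M)
    have h1' : rel φ (UP M) (lift x) (lift fun _ => a (η ++ [i])) := by rw [hx]; exact h1.1
    have h2' : rel φ (UP M) (lift x) (lift fun _ => a (η ++ [j])) := by rw [hx]; exact h2.1
    obtain ⟨N, hN1, hN2⟩ := (((rel_lift φ _ _).1 h1').and ((rel_lift φ _ _).1 h2')).exists
    exact hs η i j hij ⟨x N, hN1, hN2⟩

end Pool.Agent.H159Z.TP
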