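import Pool.Agent.H159Z.TP.Exact
import Pool.Agent.H159Z.TP.Defs

namespace Pool.Agent.H159Z.TP

open FirstOrder FirstOrder.Language Filter

universe u v w

variable {L : FirstOrder.Language.{u, v}}

/-- distinct siblings -/
def Sib (ν μ : List ℕ) : Prop := ∃ (η : List ℕ) (i j : ℕ), i ≠ j ∧ ν = η ++ [i] ∧ μ = η ++ [j]

lemma Sib.not_pre {ν μ η : List ℕ} (h : Sib ν μ) (h1 : ν <+: η) : ¬ μ <+: η := by
  obtain ⟨ξ, i, j, hij, rfl, rfl⟩ := h
  intro h2
  have h3 : ξ ++ [i] <+: ξ ++ [j] := List.prefix_of_prefix_length_le h1 h2 (by simp)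
  have h4 := h3.eq_of_length (by simp)
  simp at h4
  exact hij h4

/-- the three-level poset of the tree property -/
inductive Sig : Type
  | bot (η : List ℕ) : Sig
  | mid (ν : List ℕ) : Sig
  | top (μ : List ℕ) : Sig

/-- the strict order -/
def Sig.lt' : Sig → Sig → Prop
  | .bot η, .mid ν => ν <+: η
  | .mid ν, .top μ => Sib ν μ
  | .bot η, .top μ => ¬ μ <+: η
  | _, _ => False

instance : PartialOrder Sig where
  le s t := s = t ∨ Sig.lt' s t
  le_refl _ := Or.inl rfl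
  le_trans := by
    rintro s t r (rfl | h1) (rfl | h2)
    · exact Or.inl rfl
    · exact Or.inr h2
    · exact Or.inr h1
    · right
      cases s <;> cases t <;> cases r <;> simp only [Sig.lt'] at h1 h2 ⊢
      exact h2.not_pre h1
  le_antisymm := by
    rintro s t (rfl | h1) h2
    · rfl
    · rcases h2 with rfl | h2
      · rfl
      · cases s <;> cases t <;> simp only [Sig.lt'] at h1 h2

lemma Sig.le_def (s t : Sig) : s ≤ t ↔ s = t ∨ Sig.lt' s t := Iff.rfl

instance : Countable Sig := by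
  let f : Sig → ℕ × List ℕ := fun s => match s with
    | .bot η => (0, η)
    | .mid η => (1, η)
    | .top η => (2, η)
  refine Function.Injective.countable (f := f) ?_
  intro s t h
  cases s <;> cases t <;> simp_all [f]

lemma sop_of_preorder {T : L.Theory} (S : Type) [PartialOrder S] {γ : Type} [Finite γ]
    (M : Theory.ModelType.{u, v, w} T) (Q : (γ → M) → (γ → M) → Prop) (hQ : Df2 L Q)
    (hrefl : ∀ z, Q z z) (htrans : ∀ x y z, Q x y → Q y z → Q x z) (z : S → γ → M)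
    (hz : ∀ s t, Q (z s) (z t) ↔ s ≤ t) : HasPosetSOP.{u, v, w} S T := by
  obtain ⟨m, n, φ, e, e', hφ⟩ := hQ.toFin
  refine ⟨m, n, φ, M, fun s => z s ∘ e'.symm, fun s t => ?_⟩
  have hc : ∀ s, (z s ∘ e'.symm) ∘ e' = z s := fun s => by ext; simp
  simp only [hφ, hc]
  rw [← hz]
  constructor
  · intro h
    have := h (z s ∘ e.symm)
    have hc' : (z s ∘ e.symm) ∘ e = z s := by ext; simp
    rw [hc'] at this
    exact this (hrefl _)
  · intro h x hx
    exact htrans _ _ _ hx h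

lemma sop_of_exact {T : L.Theory} (h : ExactTP.{u, v, w} T) : HasPosetSOP.{u, v, w} Sig T := by
  obtain ⟨α, β, hα, hβ, M, R, hR, a, b, hab, hs⟩ := h
  have ainj : Function.Injective a := by
    intro ν μ h
    have h1 : ν <+: μ := (hab _ _).1 (by rw [h]; exact (hab _ _).2 (List.prefix_refl _))
    have h2 : μ <+: ν := (hab _ _).1 (by rw [← h]; exact (hab _ _).2 (List.prefix_refl _))
    exact h1.eq_of_length (le_antisymm h1.length_le h2.length_le)
  have binj : Function.Injective b := by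
    intro ν μ h
    have h1 : ν <+: μ := (hab _ _).1 (by rw [← h]; exact (hab _ _).2 (List.prefix_refl _))
    have h2 : μ <+: ν := (hab _ _).1 (by rw [h]; exact (hab _ _).2 (List.prefix_refl _))
    exact h1.eq_of_length (le_antisymm h1.length_le h2.length_le)
  -- tuples: a point and five parameter tuples
  let px : (α ⊕ Fin 5 × β → M) → α → M := fun z => z ∘ Sum.inl
  let py : Fin 5 → (α ⊕ Fin 5 × β → M) → β → M := fun i z => z ∘ (fun j => Sum.inr (i, j))
  let l0 : (α ⊕ Fin 5 × β → M) → Prop := fun z => py 2 z = py 3 z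
  let l1 : (α ⊕ Fin 5 × β → M) → Prop := fun z => ¬ py 2 z = py 3 z ∧ py 2 z = py 4 z
  let l2 : (α ⊕ Fin 5 × β → M) → Prop := fun z => ¬ py 2 z = py 3 z ∧ ¬ py 2 z = py 4 z
  let Q : (α ⊕ Fin 5 × β → M) → (α ⊕ Fin 5 × β → M) → Prop := fun z z' =>
    z = z' ∨ (l0 z ∧ l1 z' ∧ R (px z) (py 0 z')) ∨
      (l1 z ∧ l2 z' ∧ py 1 z = py 1 z' ∧ ¬ ∃ x, R x (py 0 z) ∧ R x (py 0 z')) ∨
      (l0 z ∧ l2 z' ∧ ¬ R (px z) (py 0 z'))
  have hQ : Df2 L Q := by
    have e : ∀ (c c' : (α ⊕ Fin 5 × β) → (α ⊕ Fin 5 × β) ⊕ (α ⊕ Fin 5 × β)) (i i' : Fin 5),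
        Df L (fun v : (α ⊕ Fin 5 × β) ⊕ (α ⊕ Fin 5 × β) → M =>
          py i (v ∘ c) = py i' (v ∘ c')) := fun c c' i i' =>
      Df.eqt (fun j => c (Sum.inr (i, j))) (fun j => c' (Sum.inr (i', j)))
    have r : Df L (fun v : (α ⊕ Fin 5 × β) ⊕ (α ⊕ Fin 5 × β) → M =>
        R (px (v ∘ Sum.inl)) (py 0 (v ∘ Sum.inr))) :=
      hR.app (fun j => Sum.inl (Sum.inl j)) (fun j => Sum.inr (Sum.inr (0, j)))
    refine Df.or (Df.eqt Sum.inl Sum.inr) (Df.or ?_ (Df.or ?_ ?_))
    · exact (e _ _ _ _).and (((e _ _ _ _).not.and (e _ _ _ _)).and r)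
    · refine ((e _ _ _ _).not.and (e _ _ _ _)).and
        (((e _ _ _ _).not.and (e _ _ _ _).not).and ((e _ _ _ _).and (Df.not ?_)))
      refine Df2.ex (R := fun (v : (α ⊕ Fin 5 × β) ⊕ (α ⊕ Fin 5 × β) → M) (x : α → M) =>
        R x (py 0 (v ∘ Sum.inl)) ∧ R x (py 0 (v ∘ Sum.inr))) (Df.and ?_ ?_)
      · exact hR.app Sum.inr (fun j => Sum.inl (Sum.inl (Sum.inr (0, j))))
      · exact hR.app Sum.inr (fun j => Sum.inl (Sum.inr (Sum.inr (0, j))))
    · exact (e _ _ _ _).and (((e _ _ _ _).not.and (e _ _ _ _).not).and r.not)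
  have htrans : ∀ x y z, Q x y → Q y z → Q x z := by
    rintro x y z (rfl | h1) h2
    · exact h2
    rcases h2 with rfl | h2
    · exact Or.inr h1
    right
    rcases h1 with ⟨h1, h1', h1''⟩ | ⟨h1, h1', -⟩ | ⟨h1, h1', -⟩ <;>
      rcases h2 with ⟨h2, h2', -⟩ | ⟨h2, h2', -, h2''⟩ | ⟨h2, h2', -⟩
    · exact absurd h2 h1'.1
    · exact Or.inr (Or.inr ⟨h1, h2', fun h => h2'' ⟨_, h1'', h⟩⟩)
    · exact absurd h2 h1'.1
    · exact absurd h2 h1'.1
    · exact absurd h2.2 h1'.2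
    · exact absurd h2 h1'.1
    · exact absurd h2 h1'.1
    · exact absurd h2.2 h1'.2
    · exact absurd h2 h1'.1
  let mk : (α → M) → (Fin 5 → β → M) → (α ⊕ Fin 5 × β → M) := fun x y =>
    Sum.elim x (fun q => y q.1 q.2)
  have hpx : ∀ x y, px (mk x y) = x := fun _ _ => rfl
  have hpy : ∀ x y i, py i (mk x y) = y i := fun _ _ _ => rfl
  have h01 : a [0] ≠ a [1] := fun h => by simpa using ainj h
  let z : Sig → (α ⊕ Fin 5 × β → M) := fun s => match s with
    | .bot η => mk (b η) ![a [], a [], a [0], a [0], a [0] ]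
    | .mid ν => mk (b []) ![a ν, a ν.dropLast, a [0], a [1], a [0] ]
    | .top ν => mk (b []) ![a ν, a ν.dropLast, a [0], a [1], a [1] ]
  have hz0 : ∀ s, l0 (z s) ↔ ∃ η, s = .bot η := by
    intro s
    cases s <;> simp [l0, z, hpy, h01]
  have hz1 : ∀ s, l1 (z s) ↔ ∃ η, s = .mid η := by
    intro s
    cases s <;> simp [l1, z, hpy, h01]
  have hz2 : ∀ s, l2 (z s) ↔ ∃ η, s = .top η := by
    intro s
    cases s <;> simp [l2, z, hpy, h01]
  have zinj : Function.Injective z := by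
    intro s t h
    have e0 := hz0 s
    have e1 := hz1 s
    have e2 := hz2 s
    rw [h] at e0 e1 e2
    rw [hz0] at e0
    rw [hz1] at e1
    rw [hz2] at e2
    have ex := congrArg px h
    have ey := congrArg (py 0) h
    cases s <;> cases t <;> simp at e0 e1 e2
    · simp only [z, hpx] at ex
      rw [binj ex]
    · simp only [z, hpy] at ey
      rw [ainj ey]
    · simp only [z, hpy] at ey
      rw [ainj ey]
  have hsib : ∀ ν μ : List ℕ,
      (a ν.dropLast = a μ.dropLast ∧ ¬ ∃ x, R x (a ν) ∧ R x (a μ)) ↔ Sib ν μ := by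
    intro ν μ
    constructor
    · rintro ⟨h1, h2⟩
      have h1 := ainj h1
      rcases List.eq_nil_or_concat' ν with rfl | ⟨ξ, i, rfl⟩
      · exact absurd ⟨b μ, (hab _ _).2 List.nil_prefix, (hab _ _).2 (List.prefix_refl _)⟩ h2
      rcases List.eq_nil_or_concat' μ with rfl | ⟨ξ', j, rfl⟩
      · exact absurd ⟨b _, (hab _ _).2 (List.prefix_refl _), (hab _ _).2 List.nil_prefix⟩ h2
      simp only [List.dropLast_concat] at h1
      subst h1
      refine ⟨ξ, i, j, ?_, rfl, rfl⟩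
      rintro rfl
      exact h2 ⟨b _, (hab _ _).2 (List.prefix_refl _), (hab _ _).2 (List.prefix_refl _)⟩
    · rintro ⟨ξ, i, j, hij, rfl, rfl⟩
      exact ⟨by simp, hs ξ i j hij⟩
  refine sop_of_preorder Sig M Q hQ (fun _ => Or.inl rfl) htrans z fun s t => ?_
  rw [Sig.le_def]
  simp only [Q, hz0, hz1, hz2, zinj.eq_iff]
  refine or_congr Iff.rfl ?_
  cases s <;> cases t <;> simp [Sig.lt', z, hpx, hpy, hab, ← hsib]

lemma tpk_of_hasTP {T : L.Theory} (h : HasTP.{u, v, w} T) : ∃ k, TPk.{u, v, w} T k := by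
  classical
  obtain ⟨m, n, φ, M, a, hp, k, hk⟩ := h
  refine ⟨k, Fin m, Fin n, inferInstance, inferInstance, M, rel φ M, df2_rel φ, a, fun η => ?_,
    fun η s hs => ?_⟩
  · obtain ⟨x, hx⟩ := hp (fun i => η.getD i 0) (Finset.range (η.length + 1)) (Set.subset_univ _)
    refine ⟨x, fun ν hν _ => ?_⟩
    have := hx ν.length (Finset.mem_range.2 (Nat.lt_succ_of_le hν.length_le))
    have e : (List.ofFn fun i : Fin ν.length => η.getD i 0) = ν := by
      obtain ⟨t, rfl⟩ := hν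
      apply List.ext_getElem (by simp)
      intro i h1 h2
      simp [List.getD_eq_getElem?_getD, List.getElem?_append_left h2, h2]
    simp only [e] at this
    exact this
  · rintro ⟨x, hx⟩
    exact hk η s hs fun t ht => ⟨x, fun i hi => hx i (ht hi)⟩

lemma hasTP_of_sop {T : L.Theory} (h : HasPosetSOP.{u, v, w} Sig T) : HasTP.{u, v, w} T := by
  classical
  obtain ⟨m, n, φ, M, a, ha⟩ := h
  let Q : (Fin n → M) → (Fin n → M) → Prop := fun y y' =>
    ∀ x : Fin m → M, rel φ M x y → rel φ M x y'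
  have hQ : Df2 L Q := by
    refine Df2.fa (R := fun (v : Fin n ⊕ Fin n → M) (x : Fin m → M) =>
      rel φ M x (v ∘ Sum.inl) → rel φ M x (v ∘ Sum.inr)) (Df.imp ?_ ?_)
    · exact (df2_rel φ).app Sum.inr (fun j => Sum.inl (Sum.inl j))
    · exact (df2_rel φ).app Sum.inr (fun j => Sum.inl (Sum.inr j))
  have haQ : ∀ s t, Q (a s) (a t) ↔ s ≤ t := ha
  let C : (Fin n → M) → (Fin n ⊕ Fin n → M) → Prop := fun y c =>
    Q y (c ∘ Sum.inl) ∧ ¬ Q y (c ∘ Sum.inr)
  have hC : Df2 L C :=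
    (hQ.app Sum.inl (fun j => Sum.inr (Sum.inl j))).and
      (hQ.app Sum.inl (fun j => Sum.inr (Sum.inr j))).not
  obtain ⟨m', n', ψ, e, e', hψ⟩ := hC.toFin
  let c : List ℕ → Fin n ⊕ Fin n → M := fun ν => Sum.elim (a (.mid ν)) (a (.top ν))
  have hc : ∀ ν, (c ν ∘ e'.symm) ∘ e' = c ν := fun ν => by ext; simp
  refine ⟨m', n', ψ, M, fun ν => c ν ∘ e'.symm, fun β s _ => ?_, 2, fun η s hs hcons => ?_⟩
  · let η : List ℕ := List.ofFn fun i : Fin (s.sup id) => β i
    refine ⟨a (.bot η) ∘ e.symm, fun j hj => ?_⟩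
    have hc' : (a (.bot η) ∘ e.symm) ∘ e = a (.bot η) := by ext; simp
    simp only [hψ, hc, hc']
    have hj' : j ≤ s.sup id := Finset.le_sup (f := id) hj
    have hpre : (List.ofFn fun i : Fin j => β i) <+: η := by
      rw [List.prefix_iff_getElem]
      exact ⟨by simpa [η] using hj', fun i hi => by simp [η]⟩
    refine ⟨(haQ _ _).2 (Or.inr hpre), fun h => ?_⟩
    rcases (haQ (.bot η) (.top _)).1 h with h | h
    · cases h
    · exact h hpre
  · obtain ⟨x, hx⟩ := hcons s subset_rfl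
    obtain ⟨i, j, hij, rfl⟩ := Finset.card_eq_two.1 hs
    have h1 := hx i (by simp)
    have h2 := hx j (by simp)
    simp only [hψ, hc] at h1 h2
    have h3 : Q (a (.mid (η ++ [i]))) (a (.top (η ++ [j]))) :=
      (haQ _ _).2 (Or.inr ⟨η, i, j, hij, rfl, rfl⟩)
    exact h2.2 fun y hy => h3 y (h1.1 y hy)

theorem hasTP_iff (T : L.Theory) : HasTP.{u, v, w} T ↔ HasPosetSOP.{u, v, w} Sig T := by
  refine ⟨fun h => ?_, hasTP_of_sop⟩
  obtain ⟨k, hk⟩ := tpk_of_hasTP h
  exact sop_of_exact (exact_of_tp2 (tpk_two k hk))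

end Pool.Agent.H159Z.TP
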