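import Pool.Agent.H159Z.TP.Basic

namespace Pool.Agent.H159Z.TP

open FirstOrder FirstOrder.Language Filter

universe u v w

variable {L : FirstOrder.Language.{u, v}}

/-- tree pattern, the root being ignored -/
def TPrel {X Y : Type w} (R : X → Y → Prop) (k : ℕ) (a : List ℕ → Y) : Prop :=
  (∀ η : List ℕ, ∃ x, ∀ ν, ν <+: η → ν ≠ [] → R x (a ν)) ∧
  ∀ (η : List ℕ) (s : Finset ℕ), s.card = k → ¬ ∃ x, ∀ i ∈ s, R x (a (η ++ [i]))

/-- bounded tree pattern -/
def FinTP {X Y : Type w} (R : X → Y → Prop) (k N m : ℕ) (a : List ℕ → Y) (p : List ℕ → X) :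
    Prop :=
  (∀ η : List ℕ, η.length ≤ m → (∀ i ∈ η, i < N) → ∀ ν, ν <+: η → ν ≠ [] → R (p η) (a ν)) ∧
  ∀ (η : List ℕ), η.length < m → (∀ i ∈ η, i < N) → ∀ s : Finset ℕ, (∀ i ∈ s, i < N) →
    s.card = k → ¬ ∃ x, ∀ i ∈ s, R x (a (η ++ [i]))

/-- `k`-TP in some model, internal form -/
def TPk (T : L.Theory) (k : ℕ) : Prop :=
  ∃ (α β : Type) (_ : Finite α) (_ : Finite β) (M : Theory.ModelType.{u, v, w} T)
    (R : (α → M) → (β → M) → Prop) (_ : Df2 L R) (a : List ℕ → β → M), TPrel R k a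

lemma tpk_of_finTP {T : L.Theory} {k : ℕ} {α β : Type} [Finite α] [Finite β]
    (M : Theory.ModelType.{u, v, w} T) (R : (α → M) → (β → M) → Prop) (hR : Df2 L R)
    (h : ∀ N, ∃ a p, FinTP R k N N a p) : TPk.{u, v, w} T k := by
  obtain ⟨φ, rfl⟩ := hR.exists_rel
  choose a p hap using h
  have hev : ∀ η : List ℕ, ∀ᶠ N in atTop, η.length < N ∧ ∀ i ∈ η, i < N := by
    intro η
    refine (eventually_gt_atTop _).and ?_
    filter_upwards [eventually_gt_atTop η.sum] with N hN i hi
    exact lt_of_le_of_lt (List.le_sum_of_mem hi) hN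
  refine ⟨α, β, inferInstance, inferInstance, upModel M, rel φ (UP M), df2_rel φ,
    fun ν => lift (fun N => a N ν), fun η => ⟨lift (fun N => p N η), fun ν hν hne => ?_⟩,
    fun η s hs => ?_⟩
  · refine (rel_lift φ _ _).2 (ev_of_atTop ?_)
    filter_upwards [hev η] with N hN
    exact (hap N).1 η hN.1.le hN.2 ν hν hne
  · rintro ⟨z, hz⟩
    obtain ⟨x, rfl⟩ := lift_surj z
    have h1 : ∀ᶠ N in ((hyperfilter ℕ : Ultrafilter ℕ) : Filter ℕ),
        ∀ i ∈ s, rel φ M (x N) (a N (η ++ [i])) :=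
      (Filter.eventually_all_finset s).2 fun i hi => (rel_lift φ _ _).1 (hz i hi)
    have h2 : ∀ᶠ N in atTop, ∀ i ∈ s, i < N :=
      (Filter.eventually_all_finset s).2 fun i _ => eventually_gt_atTop i
    obtain ⟨N, hN1, hN2, hN3⟩ := (h1.and ((ev_of_atTop (hev η)).and (ev_of_atTop h2))).exists
    exact (hap N).2 η hN2.1 hN2.2 s hN3 hs ⟨x N, hN1⟩

/-- leaves of the `N`-branching tree of height `m` -/
def Lv (N : ℕ) : ℕ → Type
  | 0 => Unit
  | m + 1 => Fin N × Lv N m

instance finiteLv (N : ℕ) : ∀ m, Finite (Lv N m)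
  | 0 => inferInstanceAs (Finite Unit)
  | m + 1 => haveI := finiteLv N m; inferInstanceAs (Finite (Fin N × Lv N m))

section Rank

variable {M : Type w} {α β : Type}

/-- slice of a family of tuples -/
def sl {P : Type} (b : P × α → M) (p : P) : α → M := fun j => b (p, j)

/-- a finite family is `k`-inconsistent -/
def Incons (R : (α → M) → (β → M) → Prop) (k N : ℕ) (c : Fin N × β → M) : Prop :=
  ∀ s : Finset (Fin N), s.card = k → ¬ ∃ x, ∀ i ∈ s, R x (sl c i)

/-- the points `b` lie on the leaves of an `N`-branching tree of height `m` with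
`k`-inconsistent siblings -/
def Good (R : (α → M) → (β → M) → Prop) (k N : ℕ) : ∀ m : ℕ, (Lv N m × α → M) → Prop
  | 0, _ => True
  | m + 1, b => ∃ c : Fin N × β → M, Incons R k N c ∧
      ∀ i : Fin N, (∀ p : Lv N m, R (sl b (i, p)) (sl c i)) ∧
        Good R k N m (fun q => b ((i, q.1), q.2))

lemma df_good [L.Structure M] [Finite α] [Finite β] {R : (α → M) → (β → M) → Prop}
    (hR : Df2 L R) (k N : ℕ) : ∀ m, Df L (Good R k N m)
  | 0 => Df.tru
  | m + 1 => by
    have ih := df_good hR k N m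
    refine Df2.ex (R := fun (b : Lv N (m + 1) × α → M) (c : Fin N × β → M) => Incons R k N c ∧
      ∀ i : Fin N, (∀ p : Lv N m, R (sl b (i, p)) (sl c i)) ∧
        Good R k N m (fun q => b ((i, q.1), q.2))) ?_
    refine Df.and ?_ (Df.all fun i => Df.and (Df.all fun p => ?_) ?_)
    · refine Df.all fun s => Df.imp (Df.const _) (Df.not ?_)
      refine Df2.ex (R := fun (v : (Lv N (m + 1) × α) ⊕ (Fin N × β) → M) (x : α → M) =>
        ∀ i ∈ s, R x (sl (v ∘ Sum.inr) i)) ?_
      refine Df.all fun i => Df.imp (Df.const _) ?_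
      exact hR.app Sum.inr (fun j => Sum.inl (Sum.inr (i, j)))
    · exact hR.app (fun j => Sum.inl ((i, p), j)) (fun j => Sum.inr (i, j))
    · exact ih.comp (fun q => Sum.inl ((i, q.1), q.2))

/-- the rank is at least `m` on the set `Y` -/
def Rk (R : (α → M) → (β → M) → Prop) (k N m : ℕ) (Y : (α → M) → Prop) : Prop :=
  ∃ b : Lv N m × α → M, Good R k N m b ∧ ∀ p, Y (sl b p)

lemma Rk.mono {R : (α → M) → (β → M) → Prop} {k N m : ℕ} {Y Y' : (α → M) → Prop}
    (h : Rk R k N m Y) (e : ∀ x, Y x → Y' x) : Rk R k N m Y' := by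
  obtain ⟨b, hb, hY⟩ := h
  exact ⟨b, hb, fun p => e _ (hY p)⟩

lemma rk_zero {R : (α → M) → (β → M) → Prop} {k N : ℕ} {Y : (α → M) → Prop} {x : α → M}
    (h : Y x) : Rk R k N 0 Y :=
  ⟨fun q => x q.2, trivial, fun _ => h⟩

lemma rk_succ {R : (α → M) → (β → M) → Prop} {k N m : ℕ} {Y : (α → M) → Prop}
    (c : Fin N × β → M) (hc : Incons R k N c)
    (h : ∀ i, Rk R k N m (fun x => Y x ∧ R x (sl c i))) : Rk R k N (m + 1) Y := by
  choose b hb hY using h
  refine ⟨fun q => b q.1.1 (q.1.2, q.2), ⟨c, hc, fun i => ⟨fun p => (hY i p).2, hb i⟩⟩,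
    fun p => (hY p.1 p.2).1⟩

lemma finTP_of_good [Nonempty M] {R : (α → M) → (β → M) → Prop} {k N : ℕ} (hN : 0 < N) :
    ∀ (m : ℕ) (b : Lv N m × α → M), Good R k N m b →
      ∃ a p, FinTP R k N m a p ∧ ∀ η, ∃ q, p η = sl b q
  | 0, b, _ => by
    refine ⟨fun _ _ => Classical.arbitrary M, fun _ => sl b (), ⟨?_, ?_⟩, fun _ => ⟨(), rfl⟩⟩
    · intro η hη _ ν hν hne
      have : η = [] := List.length_eq_zero_iff.1 (by omega)
      subst this
      exact absurd (List.prefix_nil.1 hν) hne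
    · intro η hη
      omega
  | m + 1, b, hb => by
    obtain ⟨c, hc, hi⟩ := hb
    have ih := fun i : Fin N => finTP_of_good hN m _ (hi i).2
    choose a p hap hq using ih
    let f : ℕ → Fin N := fun i => if h : i < N then ⟨i, h⟩ else ⟨0, hN⟩
    have hf : ∀ i (h : i < N), f i = ⟨i, h⟩ := fun i h => by simp [f, h]
    refine ⟨fun ν => match ν with
        | [] => fun _ => Classical.arbitrary M
        | [i] => sl c (f i)
        | i :: j :: ν => a (f i) (j :: ν),
      fun η => match η with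
        | [] => p ⟨0, hN⟩ []
        | i :: η => p (f i) η, ⟨?_, ?_⟩, ?_⟩
    · intro η hη hlt ν hν hne
      match η, ν, hν, hne with
      | [], ν, hν, hne => exact absurd (List.prefix_nil.1 hν) hne
      | i :: η, [], _, hne => exact absurd rfl hne
      | i :: η, [j], hν, _ =>
        obtain ⟨rfl, -⟩ := List.cons_prefix_cons.1 hν
        obtain ⟨q, hq'⟩ := hq (f j) η
        show R (p (f j) η) (sl c (f j))
        rw [hq']
        exact (hi (f j)).1 q
      | i :: η, j :: l :: ν, hν, _ =>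
        obtain ⟨rfl, h2⟩ := List.cons_prefix_cons.1 hν
        show R (p (f j) η) (a (f j) (l :: ν))
        refine (hap (f j)).1 η (by simpa using hη) (fun x hx => hlt x (by simp [hx])) _ h2
          (by simp)
    · intro η hη hlt s hs hk
      match η, hη, hlt with
      | [], _, _ =>
        rintro ⟨x, hx⟩
        refine hc (s.attachFin hs) (by rw [Finset.card_attachFin, hk]) ⟨x, fun i hi' => ?_⟩
        have := hx i (Finset.mem_attachFin hs |>.1 hi')
        have e : f i = i := hf i i.2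
        simpa [e] using this
      | i :: η, hη, hlt =>
        rintro ⟨x, hx⟩
        refine (hap (f i)).2 η (by simpa using hη) (fun x hx => hlt x (by simp [hx])) s hs hk
          ⟨x, fun j hj => ?_⟩
        have := hx j hj
        cases η with
        | nil => exact this
        | cons l η => exact this
    · intro η
      match η with
      | [] =>
        obtain ⟨q, hq'⟩ := hq ⟨0, hN⟩ []
        exact ⟨(⟨0, hN⟩, q), hq'⟩
      | i :: η =>
        obtain ⟨q, hq'⟩ := hq (f i) η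
        exact ⟨(f i, q), hq'⟩

end Rank

/-- re-indexing a tree along chosen subsequences of children -/
def reidx (η₀ : List ℕ) (g : List ℕ → ℕ → ℕ) (η : List ℕ) : List ℕ :=
  η.foldl (fun acc i => acc ++ [g acc i]) η₀

lemma reidx_snoc (η₀ : List ℕ) (g : List ℕ → ℕ → ℕ) (η : List ℕ) (i : ℕ) :
    reidx η₀ g (η ++ [i]) = reidx η₀ g η ++ [g (reidx η₀ g η) i] := by
  simp [reidx, List.foldl_append]

lemma reidx_mono (η₀ : List ℕ) (g : List ℕ → ℕ → ℕ) {ν η : List ℕ} (h : ν <+: η) :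
    reidx η₀ g ν <+: reidx η₀ g η := by
  obtain ⟨t, rfl⟩ := h
  induction t using List.reverseRecOn with
  | nil => simp
  | append_singleton t i ih =>
    rw [← List.append_assoc, reidx_snoc]
    exact ih.trans (List.prefix_append _ _)

lemma reidx_ne (η₀ : List ℕ) (g : List ℕ → ℕ → ℕ) {ν : List ℕ} (h : ν ≠ []) :
    reidx η₀ g ν ≠ [] := by
  obtain ⟨t, i, rfl⟩ := (List.eq_nil_or_concat' ν).resolve_left h
  rw [reidx_snoc]
  simp

lemma base_reidx (η₀ : List ℕ) (g : List ℕ → ℕ → ℕ) (η : List ℕ) : η₀ <+: reidx η₀ g η :=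
  reidx_mono η₀ g (List.nil_prefix (l := η))

lemma tpk_step {T : L.Theory} {k : ℕ} (hk : 1 ≤ k) (h : TPk.{u, v, w} T (k + 1)) :
    TPk.{u, v, w} T k ∨ TPk.{u, v, w} T 2 := by
  classical
  obtain ⟨α, β, hα, hβ, M, R, hR, a, hp, hs⟩ := h
  let R2 : (α → M) → (β ⊕ β → M) → Prop := fun x y => R x (y ∘ Sum.inl) ∧ R x (y ∘ Sum.inr)
  have hR2 : Df2 L R2 :=
    Df.and (hR.app Sum.inl (fun j => Sum.inr (Sum.inl j)))
      (hR.app Sum.inl (fun j => Sum.inr (Sum.inr j)))
  by_cases hA : ∀ N, Rk R2 k (N + 1) (N + 1) (fun _ => True)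
  · left
    refine tpk_of_finTP M R2 hR2 fun N => ?_
    obtain ⟨b, hb, -⟩ := hA N
    obtain ⟨a', p', h', -⟩ := finTP_of_good (Nat.succ_pos N) _ b hb
    refine ⟨a', p', fun η h1 h2 => h'.1 η (by omega) (fun i hi => by have := h2 i hi; omega),
      fun η h1 h2 s h3 => h'.2 η (by omega) (fun i hi => by have := h2 i hi; omega) s
        (fun i hi => by have := h3 i hi; omega)⟩
  right
  push Not at hA
  obtain ⟨N', hN'⟩ := hA
  set N := N' + 1 with hN
  let X : List ℕ → (α → M) → Prop := fun η x => ∀ ν, ν <+: η → ν ≠ [] → R x (a ν)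
  have hex : ∃ m, ∃ η, ¬ Rk R2 k N (m + 1) (X η) :=
    ⟨N', [], fun h => hN' (h.mono fun _ _ => trivial)⟩
  obtain ⟨η₀, hη₀⟩ := Nat.find_spec hex
  set m := Nat.find hex with hm
  have hall : ∀ η, Rk R2 k N m (X η) := by
    intro η
    rcases Nat.eq_zero_or_pos m with h0 | h0
    · rw [h0]
      obtain ⟨x, hx⟩ := hp η
      exact rk_zero hx
    · have := Nat.find_min hex (m := m - 1) (by omega)
      push Not at this
      have e : m - 1 + 1 = m := by omega
      rw [← e]
      exact this η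
  -- thinning the children of each node
  have hthin : ∀ η : List ℕ, ∃ g : ℕ → ℕ, ∀ i j, i < j →
      ¬ Rk R2 k N m (fun x => X η₀ x ∧ R x (a (η ++ [g i])) ∧ R x (a (η ++ [g j]))) := by
    intro η
    obtain ⟨g, hg | hg⟩ := exists_increasing_or_nonincreasing_subseq'
      (fun i j => Rk R2 k N m (fun x => X η₀ x ∧ R x (a (η ++ [i])) ∧ R x (a (η ++ [j])))) id
    · exfalso
      apply hη₀
      refine rk_succ (fun q => Sum.elim (a (η ++ [g (2 * q.1)])) (a (η ++ [g (2 * q.1 + 1)])) q.2)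
        ?_ (fun i => hg (2 * i))
      rintro s hsc ⟨x, hx⟩
      obtain ⟨i₀, hi₀⟩ : s.Nonempty := Finset.card_pos.1 (by omega)
      refine hs η (insert (g (2 * i₀ + 1)) (s.image fun i : Fin N => g (2 * i))) ?_ ⟨x, ?_⟩
      · rw [Finset.card_insert_of_notMem, Finset.card_image_of_injective, hsc]
        · intro i j hij
          have := g.injective hij
          exact Fin.ext (by omega)
        · simp only [Finset.mem_image, not_exists, not_and]
          intro i _ hij
          have := g.injective hij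
          omega
      · intro i hi
        rcases Finset.mem_insert.1 hi with rfl | hi
        · exact (hx i₀ hi₀).2
        · obtain ⟨j, hj, rfl⟩ := Finset.mem_image.1 hi
          exact (hx j hj).1
    · exact ⟨g, hg⟩
  choose g hg using hthin
  -- the new formula
  let δ := {ν : List ℕ // ν <+: η₀ ∧ ν ≠ []}
  have hδ : Finite δ := by
    have : ({ν : List ℕ | ν <+: η₀ ∧ ν ≠ []}).Finite :=
      (List.finite_toSet η₀.inits).subset fun ν hν => by simpa using hν.1
    exact this.to_subtype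
  let θ : (Lv N m × α → M) → (β ⊕ δ × β → M) → Prop := fun b y =>
    Good R2 k N m b ∧ ∀ p, R (sl b p) (y ∘ Sum.inl) ∧ ∀ d : δ, R (sl b p) (sl (y ∘ Sum.inr) d)
  have hθ : Df2 L θ := by
    refine Df.and ((df_good hR2 k N m).comp Sum.inl) (Df.all fun p => Df.and ?_ (Df.all fun d => ?_))
    · exact hR.app (fun j => Sum.inl (p, j)) (fun j => Sum.inr (Sum.inl j))
    · exact hR.app (fun j => Sum.inl (p, j)) (fun j => Sum.inr (Sum.inr (d, j)))
  refine ⟨Lv N m × α, β ⊕ δ × β, inferInstance, inferInstance, M, θ, hθ,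
    fun ν => Sum.elim (a (reidx η₀ g ν)) (fun q => a q.1.1 q.2), fun η => ?_, fun η s hs2 => ?_⟩
  · obtain ⟨b, hb, hX⟩ := hall (reidx η₀ g η)
    refine ⟨b, fun ν hν hne => ⟨hb, fun p => ⟨?_, fun d => ?_⟩⟩⟩
    · exact hX p _ (reidx_mono η₀ g hν) (reidx_ne η₀ g hne)
    · exact hX p d.1 (d.2.1.trans (base_reidx η₀ g η)) d.2.2
  · rintro ⟨b, hb⟩
    have key : ∀ i j, i < j → i ∈ s → j ∈ s → False := by
      intro i j hij hi hj
      refine hg (reidx η₀ g η) i j hij ⟨b, (hb i hi).1, fun p => ⟨fun ν hν hne => ?_, ?_, ?_⟩⟩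
      · exact ((hb i hi).2 p).2 ⟨ν, hν, hne⟩
      · have := ((hb i hi).2 p).1
        rw [← reidx_snoc]
        exact this
      · have := ((hb j hj).2 p).1
        rw [← reidx_snoc]
        exact this
    obtain ⟨i, j, hij, rfl⟩ := Finset.card_eq_two.1 hs2
    rcases lt_or_gt_of_ne hij with h | h
    · exact key i j h (by simp) (by simp)
    · exact key j i h (by simp) (by simp)

lemma tpk_two {T : L.Theory} : ∀ k : ℕ, TPk.{u, v, w} T k → TPk.{u, v, w} T 2
  | 0, h => by
    obtain ⟨α, β, hα, hβ, M, R, hR, a, hp, hs⟩ := h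
    obtain ⟨x, -⟩ := hp []
    exact absurd ⟨x, by simp⟩ (hs [] ∅ rfl)
  | 1, h => by
    obtain ⟨α, β, hα, hβ, M, R, hR, a, hp, hs⟩ := h
    obtain ⟨x, hx⟩ := hp [0]
    exact absurd ⟨x, by simpa using hx [0] (by simp) (by simp)⟩ (hs [] {0} rfl)
  | k + 2, h => by
    rcases tpk_step (k := k + 1) (by omega) h with h' | h'
    · exact tpk_two (k + 1) h'
    · exact h'

end Pool.Agent.H159Z.TP
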